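import Pool.Agent.Q260.AH.Db

set_option autoImplicit false

/-!
# Project AH (helper260): job XS, the excess of the first block and the pair sum
-/

namespace Pool.Agent.Q177.AH

open MeasureTheory Filter Topology Set
open Pool.Agent.Y749.Rig (ZZ mm nT fl tr ww ww_pos ww_le fl_tr fl_tr_zero)
open Pool.Agent.Q260.GM (LL)
open Pool.Agent.Q260.AH
open Pool.Agent.Y763.AH (PT gw gw_diag gw_symm sum_idx2 full_sum PS)
open SG (NZ ord)

theorem ZZ_zero (hRH : RiemannHypothesis) : ZZ 0 = ∅ := by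
  rw [Finset.eq_empty_iff_forall_notMem]
  intro s hs
  obtain ⟨-, h1, h2, -⟩ := Pool.Agent.Y763.AH.line hRH hs
  linarith

theorem fl_sinc {R : ℝ} (hR : 0 < R) (L v : ℝ) :
    fl (tr R) (v * L / (2 * Real.pi)) = Real.sinc (R * L * v / 2) ^ 2 := by
  have hpi := Real.pi_pos
  rcases eq_or_ne (v * L) 0 with h | h
  · have h2 : R * L * v / 2 = 0 := by
      have : R * L * v = R * (v * L) := by ring
      rw [this, h]
      simp
    rw [h, zero_div, fl_tr_zero hR, h2, Real.sinc_zero]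
    norm_num
  · have h3 : v * L / (2 * Real.pi) ≠ 0 := div_ne_zero h (by positivity)
    rw [fl_tr hR h3]
    have e : Real.pi * R * (v * L / (2 * Real.pi)) = R * L * v / 2 := by
      field_simp
    have h4 : R * L * v / 2 ≠ 0 := by
      have : R * L * v / 2 = R / 2 * (v * L) := by ring
      rw [this]
      exact mul_ne_zero (by positivity) h
    rw [e, Real.sinc_of_ne_zero h4]

/-- the pair sum with weights is at most that without weights -/
theorem pair_le (hRH : RiemannHypothesis) {R : ℝ} (hR : 0 < R) (T : ℝ) :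
    (NZ T : ℝ) + 2 * PT R T ≤
      ∑ s ∈ ZZ T, ∑ s' ∈ ZZ T, mm s * mm s' * Real.sinc (R * Real.log T * (s.im - s'.im) / 2) ^ 2 := by
  have e1 : (NZ T : ℝ) + 2 * PT R T = ∑ s ∈ ZZ T, ∑ s' ∈ ZZ T, mm s * mm s' * gw R T s.im s'.im := by
    rw [sum_idx2 hRH T (fun x x' => gw R T x x'),
      full_sum (fun n n' => gw R T (ord n) (ord n')) (fun n n' => gw_symm _ _ _ _)]
    rw [Finset.sum_congr rfl fun n _ => gw_diag hR T (ord n)]
    unfold PT
    simp
  rw [e1]
  refine Finset.sum_le_sum fun s _ => Finset.sum_le_sum fun s' _ => ?_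
  have hm : ∀ s : ℂ, 0 ≤ mm s := fun s => Nat.cast_nonneg _
  refine mul_le_mul_of_nonneg_left ?_ (mul_nonneg (hm s) (hm s'))
  unfold gw
  rw [fl_sinc hR]
  exact mul_le_of_le_one_right (sq_nonneg _) (ww_le _)

/-- job XS -/
theorem t_XS : S_XS := by
  intro hRH R hR
  have hT : ∀ᶠ κ : ℝ in 𝓝[>] 0, 10 ≤ 1 / κ := (Pool.Agent.Q260.GM.T_top one_pos).eventually_ge_atTop 10
  filter_upwards [self_mem_nhdsWithin, hT] with κ hκ hT
  have hκ0 : 0 < κ := hκ
  obtain ⟨T, hTd⟩ : ∃ T : ℝ, T = 1 / κ := ⟨_, rfl⟩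
  have hLL : LL κ = Real.log T := by rw [hTd]; rfl
  rw [← hTd] at hT
  have hL : 0 < Real.log T := Real.log_pos (by linarith)
  have hpi := Real.pi_pos
  have hle := pair_le hRH hR T
  obtain ⟨S, hS⟩ : ∃ S : ℝ, S = ∑ s ∈ ZZ T, ∑ s' ∈ ZZ T, mm s * mm s' *
    Real.sinc (R * Real.log T * (s.im - s'.im) / 2) ^ 2 := ⟨_, rfl⟩
  rw [← hS] at hle
  have hP : PB (Kt R (LL κ)) (0 / κ) (1 / κ) = Real.log T * R ^ 2 * S := by
    unfold PB ZB PK
    rw [zero_div, ZZ_zero hRH, Finset.sdiff_empty, ← hTd, hLL, hS, Finset.mul_sum]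
    refine Finset.sum_congr rfl fun s _ => ?_
    rw [Finset.mul_sum]
    refine Finset.sum_congr rfl fun s' _ => ?_
    unfold Kt
    ring
  unfold EX
  rw [hP, hLL, ← hTd]
  have hT0 : 0 < T := by linarith
  have hκT : κ = 1 / T := by rw [hTd]; field_simp
  have hn : 0 < nT T := by unfold nT; positivity
  have e2 : κ / Real.log T ^ 2 * (Real.pi / 2 * (Real.log T * R ^ 2 * S)) = R ^ 2 / 4 * (S / nT T) := by
    rw [hκT]
    unfold nT
    field_simp
    ring
  rw [e2]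
  have h9 : ((NZ T : ℝ) + 2 * PT R T) / nT T ≤ S / nT T := by gcongr
  have h10 : R ^ 2 / 4 * (((NZ T : ℝ) + 2 * PT R T) / nT T) ≤ R ^ 2 / 4 * (S / nT T) :=
    mul_le_mul_of_nonneg_left h9 (by positivity)
  linarith

end Pool.Agent.Q177.AH
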